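import Pool.Agent.Helper38.EC.Goals

/-!
# MP_ecc237_nt, Part I, packet C0: behaviour at 0 of the primitives of `K^b I^(6-b) / z`.
-/

set_option autoImplicit false

open MeasureTheory Filter Topology Set Complex

namespace Pool.Agent.Helper93.EC.I_C0

open EC237 EC237.PI

theorem ell_ofReal (δ : ℝ) (h : 0 < δ) : ell (δ : ℂ) = (Ld δ : ℂ) := by
  unfold ell Ld
  have h1 : Complex.log ((δ:ℂ) / 2) = ((Real.log (δ / 2) : ℝ) : ℂ) := by
    rw [Complex.ofReal_log (by positivity)]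
    push_cast
    rfl
  rw [h1]; push_cast; rfl

theorem half_mem (u : ℂ) (hu : u ∈ slitPlane) : u / 2 ∈ slitPlane := by
  rw [Complex.mem_slitPlane_iff] at hu ⊢
  have e1 : (u / 2).re = u.re / 2 := by simp
  have e2 : (u / 2).im = u.im / 2 := by simp
  rw [e1, e2]
  rcases hu with h | h
  · left; positivity
  · right; exact div_ne_zero h (by norm_num)

theorem hasDerivAt_ell (u : ℂ) (hu : u ∈ slitPlane) : HasDerivAt ell (-u⁻¹) u := by
  have h0 : u ≠ 0 := Complex.slitPlane_ne_zero hu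
  have h1 : HasDerivAt (fun z : ℂ => Complex.log (z / 2)) ((1 / 2) / (u / 2)) u :=
    ((hasDerivAt_id u).div_const 2).clog (half_mem u hu)
  have h2 := (h1.neg).sub_const (Real.eulerMascheroniConstant : ℂ)
  have e : -((1 / 2 : ℂ) / (u / 2)) = -u⁻¹ := by
    field_simp
  rw [e] at h2
  exact h2

/-- the comparison function and its primitive -/
noncomputable def gg (b : ℕ) (u : ℂ) : ℂ := ell u ^ b * u⁻¹

noncomputable def GG (b : ℕ) (u : ℂ) : ℂ := -(ell u ^ (b + 1) / ((b : ℂ) + 1))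

theorem hasDerivAt_GG (b : ℕ) (u : ℂ) (hu : u ∈ slitPlane) : HasDerivAt (GG b) (gg b u) u := by
  have h1 := ((hasDerivAt_ell u hu).pow (b + 1)).div_const ((b : ℂ) + 1)
  have h2 := h1.neg
  have hb : ((b : ℂ) + 1) ≠ 0 := by
    have : ((b : ℂ) + 1) = ((b + 1 : ℕ) : ℂ) := by push_cast; rfl
    rw [this]; exact_mod_cast Nat.succ_ne_zero b
  have e : -((((b + 1 : ℕ) : ℂ) * ell u ^ (b + 1 - 1) * -u⁻¹) / ((b : ℂ) + 1)) = gg b u := by
    unfold gg
    rw [Nat.add_sub_cancel]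
    push_cast
    field_simp
  rw [e] at h2
  exact h2

theorem continuousOn_gg (b : ℕ) : ContinuousOn (gg b) slitPlane := by
  intro u hu
  apply ContinuousAt.continuousWithinAt
  unfold gg
  exact ((hasDerivAt_ell u hu).continuousAt.pow b).mul (continuousAt_inv₀ (Complex.slitPlane_ne_zero hu))

theorem Qd_slit (z : ℂ) (hz : z ∈ Qd) : z ∈ slitPlane := by
  obtain ⟨h1, h2, h3⟩ := hz
  rw [Complex.mem_slitPlane_iff]
  by_cases h : z.im = 0
  · left
    rcases lt_or_eq_of_le h1 with h4 | h4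
    · exact h4
    · exact absurd (Complex.ext h4.symm h) h3
  · right; exact h

/-- The difference of the integrals over a segment. -/
theorem seg_bound (b : ℕ) (f : ℂ → ℂ) (hf : ContinuousOn f Qd) (C δ : ℝ) (hδ : 0 < δ)
    (hC : ∀ z ∈ Qd, ‖z‖ ≤ 1 → ‖f z - gg b z‖ ≤ C * ‖z‖ ^ (1 / 2 : ℝ) / ‖z‖) (hC0 : 0 ≤ C)
    (γ : ℝ → ℂ) (hγ : Continuous γ) (x1 x2 : ℝ) (h12 : x1 ≤ x2) (hx : x2 - x1 ≤ δ)
    (hγ1 : ∀ x ∈ Icc x1 x2, γ x ∈ Qd) (hγ2 : ∀ x ∈ Icc x1 x2, ‖γ x‖ ≤ 1 ∧ δ ≤ ‖γ x‖) :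
    ‖(∫ x in x1..x2, f (γ x)) - ∫ x in x1..x2, gg b (γ x)‖ ≤ C * δ ^ (1 / 2 : ℝ) := by
  have i1 : IntervalIntegrable (fun x => f (γ x)) volume x1 x2 := by
    apply ContinuousOn.intervalIntegrable
    rw [uIcc_of_le h12]
    exact hf.comp hγ.continuousOn hγ1
  have i2 : IntervalIntegrable (fun x => gg b (γ x)) volume x1 x2 := by
    apply ContinuousOn.intervalIntegrable
    rw [uIcc_of_le h12]
    exact (continuousOn_gg b).comp hγ.continuousOn (fun x hx => Qd_slit _ (hγ1 x hx))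
  rw [← intervalIntegral.integral_sub i1 i2]
  have key : ∀ x ∈ Set.uIoc x1 x2, ‖f (γ x) - gg b (γ x)‖ ≤ C * δ ^ (-(1 / 2) : ℝ) := by
    intro x hx
    rw [uIoc_of_le h12] at hx
    have hx' : x ∈ Icc x1 x2 := ⟨hx.1.le, hx.2⟩
    obtain ⟨n1, n2⟩ := hγ2 x hx'
    have h1 := hC _ (hγ1 x hx') n1
    have hpos : 0 < ‖γ x‖ := lt_of_lt_of_le hδ n2
    have e : C * ‖γ x‖ ^ (1 / 2 : ℝ) / ‖γ x‖ = C * ‖γ x‖ ^ (-(1 / 2) : ℝ) := by
      rw [mul_div_assoc]
      congr 1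
      nth_rewrite 2 [← Real.rpow_one ‖γ x‖]
      rw [← Real.rpow_sub hpos]
      norm_num
    rw [e] at h1
    refine h1.trans (mul_le_mul_of_nonneg_left ?_ hC0)
    exact Real.rpow_le_rpow_of_nonpos hδ n2 (by norm_num)
  have h := intervalIntegral.norm_integral_le_of_norm_le_const key
  refine h.trans ?_
  rw [abs_of_nonneg (by linarith)]
  have hp : 0 ≤ C * δ ^ (-(1 / 2) : ℝ) := mul_nonneg hC0 (Real.rpow_nonneg hδ.le _)
  calc C * δ ^ (-(1 / 2) : ℝ) * (x2 - x1) ≤ C * δ ^ (-(1 / 2) : ℝ) * δ :=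
        mul_le_mul_of_nonneg_left hx hp
    _ = C * δ ^ (1 / 2 : ℝ) := by
        rw [mul_assoc]
        congr 1
        nth_rewrite 2 [← Real.rpow_one δ]
        rw [← Real.rpow_add hδ]
        norm_num

theorem ftc_h (b : ℕ) (δ : ℝ) (hδ : 0 < δ) :
    ∫ x in (0:ℝ)..δ, gg b ((x:ℂ) + (-δ : ℝ) * I) =
      GG b ((δ:ℂ) + (-δ : ℝ) * I) - GG b (((0:ℝ):ℂ) + (-δ : ℝ) * I) := by
  have hs : ∀ x : ℝ, ((x:ℂ) + (-δ : ℝ) * I) ∈ slitPlane := by
    intro x
    rw [Complex.mem_slitPlane_iff]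
    right
    simp
    exact hδ.ne'
  have hc : Continuous (fun x : ℝ => (x:ℂ) + (-δ : ℝ) * I) := by fun_prop
  apply intervalIntegral.integral_eq_sub_of_hasDerivAt
    (f := fun x : ℝ => GG b ((x:ℂ) + (-δ : ℝ) * I))
  · intro x _
    have h1 : HasDerivAt (fun x : ℝ => (x:ℂ) + (-δ : ℝ) * I) 1 x :=
      (Complex.ofRealCLM.hasDerivAt (x := x)).add_const _
    have h2 := (hasDerivAt_GG b _ (hs x)).scomp x h1
    rw [one_smul] at h2
    exact h2
  · apply ContinuousOn.intervalIntegrable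
    exact (continuousOn_gg b).comp hc.continuousOn (fun x _ => hs x)

theorem ftc_v (b : ℕ) (δ : ℝ) (hδ : 0 < δ) :
    I * ∫ y in (-δ)..(0:ℝ), gg b ((δ:ℂ) + (y:ℂ) * I) =
      GG b ((δ:ℂ) + ((0:ℝ):ℂ) * I) - GG b ((δ:ℂ) + (-δ : ℝ) * I) := by
  have hs : ∀ y : ℝ, ((δ:ℂ) + (y:ℂ) * I) ∈ slitPlane := by
    intro y
    rw [Complex.mem_slitPlane_iff]
    left
    simp
    exact hδ
  have hc : Continuous (fun y : ℝ => (δ:ℂ) + (y:ℂ) * I) := by fun_prop
  rw [← intervalIntegral.integral_const_mul]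
  apply intervalIntegral.integral_eq_sub_of_hasDerivAt
    (f := fun y : ℝ => GG b ((δ:ℂ) + (y:ℂ) * I))
  · intro y _
    have h1 : HasDerivAt (fun y : ℝ => (δ:ℂ) + (y:ℂ) * I) (1 * I) y :=
      ((Complex.ofRealCLM.hasDerivAt (x := y)).mul_const I).const_add _
    have h2 := (hasDerivAt_GG b _ (hs y)).scomp y h1
    rw [one_mul, smul_eq_mul] at h2
    exact h2
  · apply ContinuousOn.intervalIntegrable
    exact continuousOn_const.mul ((continuousOn_gg b).comp hc.continuousOn (fun x _ => hs x))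

/-- Step 1 and 2. -/
theorem corner (hRP : G_RP) (hVPA : G_VPA) (hKSM : G_KSM) (b : ℕ) (hb : b ≤ 6) :
    ∃ C : ℝ, 0 ≤ C ∧ ∀ δ : ℝ, 0 < δ → δ ≤ 1 / 2 →
      ‖(GV (fb b (-1)) δ - GV (fb b (-1)) (-(I * δ))) - (GG b δ - GG b (-(I * δ)))‖ ≤
        C * δ ^ (1 / 2 : ℝ) := by
  obtain ⟨C0, hC0⟩ := hKSM
  have adm : VAdm (fb b (-1)) := hRP.1 b hb (-1) (Or.inr rfl)
  obtain ⟨-, hH, hV⟩ := hVPA _ adm
  obtain ⟨hcont, -, -⟩ := adm
  have hbd : ∀ z ∈ Qd, ‖z‖ ≤ 1 →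
      ‖fb b (-1) z - gg b z‖ ≤ |C0| * ‖z‖ ^ (1 / 2 : ℝ) / ‖z‖ := by
    intro z hz hz1
    have h := (hC0 z hz hz1).2.2.2 b hb
    have e : fb b (-1) z - gg b z = (Kc z ^ b * Ic z ^ (6 - b) - ell z ^ b) * z⁻¹ := by
      unfold fb gg
      rw [zpow_neg_one]; ring
    rw [e, norm_mul, norm_inv, div_eq_mul_inv]
    refine mul_le_mul_of_nonneg_right (h.trans ?_) (by positivity)
    exact mul_le_mul_of_nonneg_right (le_abs_self _) (by positivity)
  refine ⟨|C0| + |C0|, by positivity, ?_⟩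
  intro δ hδ hδ2
  have hh := hH 0 δ (-δ) le_rfl hδ.le (by linarith) (Or.inr (by linarith))
  have hv := hV δ (-δ) 0 hδ.le (by linarith) le_rfl (Or.inl hδ)
  have sh := seg_bound b (fb b (-1)) hcont |C0| δ hδ hbd (abs_nonneg _)
    (fun x => (x:ℂ) + (-δ : ℝ) * I) (by fun_prop) 0 δ hδ.le (by linarith)
    (by
      intro x hx
      refine ⟨by simpa using hx.1, by simpa using hδ.le, ?_⟩
      intro h
      have := congrArg Complex.im h
      simp at this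
      exact hδ.ne' this)
    (by
      intro x hx
      constructor
      · refine (norm_add_le _ _).trans ?_
        rw [norm_mul, Complex.norm_I, Complex.norm_real, Complex.norm_real, Real.norm_eq_abs,
          Real.norm_eq_abs, abs_of_nonneg hx.1, abs_neg, abs_of_pos hδ]
        linarith [hx.2]
      · have h := Complex.abs_im_le_norm ((x:ℂ) + (-δ : ℝ) * I)
        simp at h
        rw [abs_of_pos hδ] at h
        simpa using h)
  have sv := seg_bound b (fb b (-1)) hcont |C0| δ hδ hbd (abs_nonneg _)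
    (fun y => (δ:ℂ) + (y:ℂ) * I) (by fun_prop) (-δ) 0 (by linarith) (by linarith)
    (by
      intro x hx
      refine ⟨by simpa using hδ.le, by simpa using hx.2, ?_⟩
      intro h
      have := congrArg Complex.re h
      simp at this
      exact hδ.ne' this)
    (by
      intro x hx
      constructor
      · refine (norm_add_le _ _).trans ?_
        rw [norm_mul, Complex.norm_I, Complex.norm_real, Complex.norm_real, Real.norm_eq_abs,
          Real.norm_eq_abs, abs_of_nonpos hx.2, abs_of_pos hδ]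
        linarith [hx.1]
      · have h := Complex.abs_re_le_norm ((δ:ℂ) + (x:ℂ) * I)
        simp at h
        rw [abs_of_pos hδ] at h
        simpa using h)
  rw [ftc_h b δ hδ] at sh
  have e1 : ((δ:ℂ) + ((0:ℝ):ℂ) * I) = (δ:ℂ) := by simp
  have e2 : (((0:ℝ):ℂ) + ((-δ : ℝ):ℂ) * I) = -(I * δ) := by
    push_cast; ring
  have fv := ftc_v b δ hδ
  rw [e1] at hv fv
  rw [e2] at hh sh
  have hI : ‖I * (∫ y in (-δ)..(0:ℝ), fb b (-1) ((δ:ℂ) + (y:ℂ) * I)) -
      I * ∫ y in (-δ)..(0:ℝ), gg b ((δ:ℂ) + (y:ℂ) * I)‖ ≤ |C0| * δ ^ (1 / 2 : ℝ) := by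
    rw [← mul_sub, norm_mul, Complex.norm_I, one_mul]
    exact sv
  rw [fv, ← hv] at hI
  rw [← hh] at sh
  have e : (GV (fb b (-1)) δ - GV (fb b (-1)) (-(I * δ))) - (GG b δ - GG b (-(I * δ))) =
    ((GV (fb b (-1)) δ - GV (fb b (-1)) ((δ:ℂ) + ((-δ : ℝ):ℂ) * I)) -
      (GG b δ - GG b ((δ:ℂ) + ((-δ : ℝ):ℂ) * I))) +
    ((GV (fb b (-1)) ((δ:ℂ) + ((-δ : ℝ):ℂ) * I) - GV (fb b (-1)) (-(I * δ))) -
      (GG b ((δ:ℂ) + ((-δ : ℝ):ℂ) * I) - GG b (-(I * δ)))) := by ring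
  rw [e]
  refine (norm_add_le _ _).trans ?_
  rw [add_mul]
  exact add_le_add hI sh

/-- Step 3. -/
theorem GV_axis (hJY : G_JY) (hAX : G_AX) (b : ℕ) (hb : b ≤ 6) (δ : ℝ) (hδ : 0 < δ) :
    GV (fb b (-1)) (-(I * δ)) = -∑ j ∈ Finset.range (b + 1),
      (b.choose j : ℂ) * (I * (Real.pi / 2)) ^ (b - j) *
        ((∫ η in Ioi δ, Jr η ^ (6 - j) * Yr η ^ j / η : ℝ) : ℂ) := by
  have hint : ∀ j : ℕ, j ∈ Finset.range (b + 1) →
      IntegrableOn (fun η => ((Jr η ^ (6 - j) * Yr η ^ j / η : ℝ) : ℂ)) (Ioi δ) := by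
    intro j hj
    rw [Finset.mem_range] at hj
    have h := hAX.2.2 j (by omega) δ hδ
    exact h.ofReal
  have shift : ∫ η in Ioi (0:ℝ), fb b (-1) (-(I * δ) - I * η) =
      ∫ η in Ioi δ, fb b (-1) (-(I * η)) := by
    rw [← integral_indicator measurableSet_Ioi, ← integral_indicator measurableSet_Ioi,
      ← integral_add_right_eq_self ((Ioi δ).indicator (fun η : ℝ => fb b (-1) (-(I * η)))) δ]
    apply integral_congr_ae
    refine Eventually.of_forall (fun η => ?_)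
    simp only
    by_cases h : η ∈ Ioi (0:ℝ)
    · have h' : η + δ ∈ Ioi δ := by
        rw [mem_Ioi] at h ⊢; linarith
      rw [indicator_of_mem h, indicator_of_mem h']
      congr 1
      push_cast; ring
    · have h' : η + δ ∉ Ioi δ := by
        rw [mem_Ioi] at h ⊢; intro h2; exact h (by linarith)
      rw [indicator_of_notMem h, indicator_of_notMem h']
  unfold GV
  rw [shift]
  have hval : ∀ η ∈ Ioi δ, I * fb b (-1) (-(I * η)) = -∑ j ∈ Finset.range (b + 1),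
      (b.choose j : ℂ) * (I * (Real.pi / 2)) ^ (b - j) *
        ((Jr η ^ (6 - j) * Yr η ^ j / η : ℝ) : ℂ) := by
    intro η hη
    have hη0 : 0 < η := hδ.trans hη
    obtain ⟨e1, e2, -⟩ := hJY.1 η hη0
    have hne : (η : ℂ) ≠ 0 := by exact_mod_cast hη0.ne'
    unfold fb
    rw [e1, e2, zpow_neg_one, add_pow, Finset.sum_mul, Finset.sum_mul, Finset.mul_sum,
      ← Finset.sum_neg_distrib]
    apply Finset.sum_congr rfl
    intro j hj
    rw [Finset.mem_range] at hj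
    have hI : (-(I * (η:ℂ)))⁻¹ = I * (η:ℂ)⁻¹ := by
      rw [neg_eq_neg_one_mul, mul_inv, mul_inv, Complex.inv_I]
      norm_num
    rw [hI]
    have hpow : (6 - j) = (b - j) + (6 - b) := by omega
    rw [hpow]
    push_cast
    rw [pow_add, mul_pow (I * ((Real.pi:ℂ) / 2)) (Jr η : ℂ) (b - j), div_eq_mul_inv]
    have hII : I * I = -1 := Complex.I_mul_I
    linear_combination ((Yr η : ℂ) ^ j * ((I * ((Real.pi:ℂ) / 2)) ^ (b - j) * (Jr η : ℂ) ^ (b - j)) *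
      (b.choose j : ℂ) * (Jr η : ℂ) ^ (6 - b) * (η:ℂ)⁻¹) * hII
  rw [← integral_const_mul, setIntegral_congr_fun measurableSet_Ioi hval, integral_neg,
    integral_finsetSum]
  · congr 1
    apply Finset.sum_congr rfl
    intro j hj
    rw [integral_const_mul]
    congr 1
    exact integral_ofReal
  · intro j hj
    exact (hint j hj).const_mul _

/-- Step 5. -/
theorem binom_id (b : ℕ) (hb : b ≤ 6) (c L : ℂ) :
    ∑ j ∈ Finset.range (b + 1), (b.choose j : ℂ) * c ^ (b - j) * (L ^ (j + 1) / ((j:ℂ) + 1)) =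
      ((L + c) ^ (b + 1) - c ^ (b + 1)) / ((b:ℂ) + 1) := by
  interval_cases b <;> simp [Finset.sum_range_succ, Nat.choose] <;> ring

theorem thm (hRP : G_RP) (_hFB : G_FB) (hVPA : G_VPA) (hKSM : G_KSM) (hJY : G_JY) (hAX : G_AX) :
    G_C0 := by
  intro A hA b hb
  obtain ⟨C, hC0, hC⟩ := corner hRP hVPA hKSM b hb
  set c : ℂ := I * (Real.pi / 2) with hc
  -- first part tends to zero
  have t1 : Tendsto (fun δ : ℝ => (GV (fb b (-1)) δ - GV (fb b (-1)) (-(I * δ))) -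
      (GG b δ - GG b (-(I * δ)))) (𝓝[>] 0) (𝓝 0) := by
    have hz : Tendsto (fun δ : ℝ => C * δ ^ (1 / 2 : ℝ)) (𝓝[>] 0) (𝓝 0) := by
      have h1 : Tendsto (fun δ : ℝ => δ ^ (1 / 2 : ℝ)) (𝓝 0) (𝓝 ((0:ℝ) ^ (1 / 2 : ℝ))) :=
        (Real.continuousAt_rpow_const 0 (1 / 2) (Or.inr (by norm_num))).tendsto
      rw [Real.zero_rpow (by norm_num)] at h1
      have h2 := (h1.const_mul C).mono_left (nhdsWithin_le_nhds (s := Ioi 0))
      simpa using h2
    refine squeeze_zero_norm' ?_ hz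
    have hev : ∀ᶠ δ : ℝ in 𝓝[>] 0, δ ∈ Ioc (0:ℝ) (1 / 2) :=
      Ioc_mem_nhdsGT (by norm_num)
    filter_upwards [hev] with δ hδ
    exact hC δ hδ.1 hδ.2
  have t2 : Tendsto (fun δ : ℝ => -∑ j ∈ Finset.range (b + 1),
      (b.choose j : ℂ) * c ^ (b - j) *
        (((∫ η in Ioi δ, Jr η ^ (6 - j) * Yr η ^ j / η) - Ld δ ^ (j + 1) / ((j:ℝ) + 1) : ℝ) : ℂ))
      (𝓝[>] 0) (𝓝 (-∑ j ∈ Finset.range (b + 1),
      (b.choose j : ℂ) * c ^ (b - j) * (A j : ℂ))) := by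
    apply Tendsto.neg
    apply tendsto_finsetSum
    intro j hj
    rw [Finset.mem_range] at hj
    apply Tendsto.const_mul
    exact (Complex.continuous_ofReal.tendsto _).comp (hA j (by omega))
  have t3 := (t1.add t2).add_const (c ^ (b + 1) / ((b:ℂ) + 1))
  have hlim : (0 + -∑ j ∈ Finset.range (b + 1), (b.choose j : ℂ) * c ^ (b - j) * (A j : ℂ)) +
      c ^ (b + 1) / ((b:ℂ) + 1) = -cb A b := by
    unfold cb
    rw [← hc]
    ring
  rw [hlim] at t3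
  refine t3.congr' ?_
  have hev : ∀ᶠ δ : ℝ in 𝓝[>] 0, δ ∈ Ioi (0:ℝ) := self_mem_nhdsWithin
  filter_upwards [hev] with δ hδ
  have hδ0 : 0 < δ := hδ
  rw [GV_axis hJY hAX b hb δ hδ0]
  obtain ⟨-, -, e3⟩ := hJY.1 δ hδ0
  have hid := binom_id b hb c (Ld δ : ℂ)
  have hsum : ∑ j ∈ Finset.range (b + 1), (b.choose j : ℂ) * c ^ (b - j) *
        (((∫ η in Ioi δ, Jr η ^ (6 - j) * Yr η ^ j / η) - Ld δ ^ (j + 1) / ((j:ℝ) + 1) : ℝ) : ℂ) =
      (∑ j ∈ Finset.range (b + 1), (b.choose j : ℂ) * c ^ (b - j) *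
        ((∫ η in Ioi δ, Jr η ^ (6 - j) * Yr η ^ j / η : ℝ) : ℂ)) -
      ((Ld δ + c) ^ (b + 1) - c ^ (b + 1)) / ((b:ℂ) + 1) := by
    rw [← hid, ← Finset.sum_sub_distrib]
    apply Finset.sum_congr rfl
    intro j _
    push_cast
    ring
  rw [hsum]
  unfold GG
  rw [e3, ell_ofReal δ hδ0, ← hc]
  push_cast
  ring

end Pool.Agent.Helper93.EC.I_C0
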